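import Pool.Agent.ZPU.Stmts

/-!
Squad ZPU, row URP: polynomials with unramified coefficients.
-/

set_option autoImplicit false

namespace Pool.Agent.ZPU.H85

open Polynomial Pool.Agent.ZPT Pool.Agent.ZP3 Pool.Agent.ZP3.H51

theorem urp (urr : URRStmt) : URPStmt := by
  intro p hp K _ _ _ hE
  let S : Subring K := urR urr hp hE
  have memS : ∀ a : K, a ∈ S ↔ Ur p a := fun a => mem_urR urr hp hE
  have hint : ∀ m : ℤ, ((m : K)) ∈ S := fun m => intCast_mem S m
  have hadd : ∀ P Q : (OO K)[X], UrP p P → UrP p Q → UrP p (P + Q) := by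
    intro P Q hP hQ j
    rw [coeff_add, Subring.coe_add]
    exact S.add_mem (hP j) (hQ j)
  have hsub : ∀ P Q : (OO K)[X], UrP p P → UrP p Q → UrP p (P - Q) := by
    intro P Q hP hQ j
    rw [coeff_sub]
    exact S.sub_mem (hP j) (hQ j)
  have hmul : ∀ P Q : (OO K)[X], UrP p P → UrP p Q → UrP p (P * Q) := by
    intro P Q hP hQ j
    have h1 : (((P * Q).coeff j : OO K) : K) =
        ∑ x ∈ Finset.HasAntidiagonal.antidiagonal j, ((P.coeff x.1 : OO K) : K) * ((Q.coeff x.2 : OO K) : K) := by
      rw [coeff_mul, ← Subring.subtype_apply, map_sum]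
      rfl
    rw [h1]
    exact S.sum_mem fun x _ => S.mul_mem (hP x.1) (hQ x.2)
  have hC : ∀ c : OO K, Ur p (c : K) → UrP p (C c) := by
    intro c hc j
    rw [coeff_C]
    split_ifs
    · exact hc
    · exact S.zero_mem
  have hone : UrP p (1 : (OO K)[X]) := by
    rw [← C_1]
    exact hC 1 S.one_mem
  have hX : UrP p (X : (OO K)[X]) := by
    intro j
    rw [coeff_X]
    split_ifs
    · exact S.one_mem
    · exact S.zero_mem
  have hpow : ∀ P : (OO K)[X], UrP p P → ∀ n : ℕ, UrP p (P ^ n) := by
    intro P hP n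
    induction n with
    | zero => rw [pow_zero]; exact hone
    | succ n ih => rw [pow_succ]; exact hmul _ _ ih hP
  refine ⟨fun P Q hP hQ => ⟨hadd P Q hP hQ, hmul P Q hP hQ, hsub P Q hP hQ⟩, hpow, hC, hX, ?_, ?_⟩
  · intro A τ hτ
    have hq : UrP p (X + C τ : (OO K)[X]) := hadd _ _ hX (hC τ hτ)
    induction A using Polynomial.induction_on' with
    | add A B hA hB =>
      have h1 : sh (A + B) τ = sh A τ + sh B τ := by
        unfold sh
        rw [Polynomial.map_add, add_comp]
      rw [h1]
      exact hadd _ _ hA hB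
    | monomial n a =>
      have h1 : sh (monomial n a) τ = C ((a : OO K)) * (X + C τ) ^ n := by
        unfold sh
        rw [Polynomial.map_monomial, monomial_comp]
        rfl
      rw [h1]
      refine hmul _ _ (hC _ ?_) (hpow _ hq n)
      have h2 : (((a : OO K)) : K) = (a : K) := Subring.coe_intCast _ a
      rw [h2]
      exact hint a
  · intro A x hx
    rw [aeval_eq_sum_range]
    refine S.sum_mem fun i _ => ?_
    exact S.zsmul_mem (S.pow_mem hx i) _

end Pool.Agent.ZPU.H85
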