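import Pool.Agent.ZPU.Stmts

/-!
Squad ZPU, row WPR: preparation near a zero or pole of one coordinate.
-/

set_option autoImplicit false

namespace Pool.Agent.ZPU.H85

open Polynomial Pool.Agent.ZPT Pool.Agent.ZP3 Pool.Agent.ZP3.H51

theorem wpr (ord : ORDStmt) (shr : SHRStmt) (evo : EVOStmt) (urp : URPStmt) (tef : TEFStmt)
    (wwn : WWNStmt) (thb : THBStmt) (dep : DEPStmt) : WPRStmt := by
  intro p hp K _ _ _ hE k _ _ r hr D A B E₁ E₂ w₁ w₂ h hD hAD hBD hED hwr hE1 t t₀ ζ x Q ω η a hW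
    hζ hω ha hη
  have hp5 : 5 ≤ p := by omega
  have hp3 : 3 ≤ p := by omega
  obtain ⟨th1, th2, th3, th4, -⟩ := thb p hp hp5
  obtain ⟨ww1, ww2, ww3, -⟩ := wwn p hp hp3 K hE a η ha hη
  obtain ⟨ev1, ev2, ev3, ev4, ev5, ev6, ev7⟩ := evo K
  obtain ⟨ur1, ur2, ur3, ur4, ur5, ur6⟩ := urp p hp K hE
  obtain ⟨sh1, sh2, sh3⟩ := shr p hp k
  obtain ⟨tf1, tf2, -, -⟩ := tef p hp K hE
  have hpR : (0 : ℝ) < (p : ℝ) := by exact_mod_cast hp.pos
  have hpi : (0 : ℝ) < (p : ℝ)⁻¹ := inv_pos.2 hpR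
  have hpi1 : (p : ℝ)⁻¹ < 1 := by
    rw [inv_lt_one₀ hpR]
    exact_mod_cast hp.one_lt
  -- the two centres
  obtain ⟨hu0, hn0, -, -⟩ := tf1 t₀ hW.te
  obtain ⟨-, hωU, -⟩ := tf2 ω hω
  have hω1 : ‖ω‖ = 1 := hωU.2
  let τ : OO K := ⟨t₀, hn0⟩
  let o : OO K := ⟨ω, hω1.le⟩
  have hτ : (τ : K) = t₀ := rfl
  have ho : (o : K) = ω := rfl
  -- the polynomial for the first coordinate
  let P : (OO K)[X] := sh A τ - C o * sh B τ
  have hPU : UrP p P :=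
    (ur1 _ _ (ur5 A τ hu0) ((ur1 _ _ (ur3 o hωU.1) (ur5 B τ hu0)).2.1)).2.2
  have hPm : P.map r = tt p (r τ) (bar p A) - C (r o) * tt p (r τ) (bar p B) := by
    change (sh A τ - C o * sh B τ).map r = _
    rw [Polynomial.map_sub, Polynomial.map_mul, map_C, (sh3 K r hr A τ).1, (sh3 K r hr B τ).1]
  have hP0 : P.map r ≠ 0 := by
    intro h0
    rw [hPm, sub_eq_zero] at h0
    have h1 := (sh1 (r τ) (bar p A) (bar p B)).2.2.2.1
    have h2 : wr (tt p (r τ) (bar p A)) (tt p (r τ) (bar p B)) = 0 := by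
      rw [h0]
      unfold wr
      rw [derivative_mul, derivative_C]
      ring
    rw [h2] at h1
    have h3 := (sh1 (r τ) (wr (bar p A) (bar p B)) 0).2.2.2.2.2.2.1
    exact hwr (h3.1 h1.symm)
  have hbar : ∀ F : ℤ[X], (tt p (r τ) (bar p F)).natDegree ≤ F.natDegree := by
    intro F
    rw [(sh1 (r τ) (bar p F) 0).2.2.2.2.2.1]
    exact natDegree_map_le
  obtain ⟨n, M, hn, hM1, hM2, hM3, hM4⟩ := ord p hp K hE k r hr P hPU hP0
  have hnD : n ≤ D := by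
    refine hn.trans ?_
    rw [hPm]
    refine (natDegree_sub_le _ _).trans (max_le ((hbar A).trans hAD) ?_)
    exact (natDegree_C_mul_le _ _).trans ((hbar B).trans hBD)
  have hy1 : ‖t - t₀‖ < 1 := hW.ht
  have hty : t - t₀ + (τ : K) = t := by rw [hτ]; ring
  have hPe : evO P (t - t₀) = aeval t A - ω * aeval t B := by
    change evO (sh A τ - C o * sh B τ) (t - t₀) = _
    rw [(ev1 _ _ _).2.2, (ev1 _ _ _).2.1, ev3, ev5, ev5, hty]
  obtain ⟨hM5, hM6, hM7⟩ := hM4 (t - t₀) hy1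
  rw [hPe] at hM5
  -- norms
  have hth : (p : ℝ)⁻¹ < th p := by
    refine th4.trans_le ?_
    have h1 : th p ^ 3 ≤ th p ^ 1 := pow_le_pow_of_le_one th2.le th3.le (by norm_num)
    rwa [pow_one] at h1
  have hη1 : (p : ℝ)⁻¹ < ‖η - 1‖ := hth.trans_le ww2
  have hnP : ‖aeval t A - ω * aeval t B‖ = ‖η - 1‖ := by
    have h1 : ‖ω * (η - 1) * aeval t B‖ = ‖η - 1‖ := by
      rw [norm_mul, norm_mul, hω1, hW.nB, one_mul, mul_one]
    rw [← h1]
    refine norm_eq_of_near ?_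
    have h2 : aeval t A - ω * aeval t B - ω * (η - 1) * aeval t B =
        aeval t A - ζ * aeval t B := by
      rw [hζ]; ring
    rw [h2, h1]
    exact hW.hz.trans_lt hη1
  have hyn : ‖t - t₀‖ ^ n = ‖η - 1‖ := by
    have h1 : ‖(t - t₀) ^ n * evO M (t - t₀)‖ = ‖t - t₀‖ ^ n := by
      rw [norm_mul, norm_pow, hM6, mul_one]
    rw [← h1, ← hnP]
    refine norm_eq_of_near ?_
    rw [norm_sub_rev, hnP]
    exact hM5.trans_lt hη1
  have hn1 : 1 ≤ n := by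
    rcases Nat.eq_zero_or_pos n with h0 | h0
    · rw [h0, pow_zero] at hyn
      exact absurd hyn ww3.ne'
    · exact h0
  have hθth : th p ≤ ‖t - t₀‖ := by
    have h1 : ‖t - t₀‖ ^ n ≤ ‖t - t₀‖ ^ 1 := pow_le_pow_of_le_one (norm_nonneg _) hy1.le hn1
    rw [pow_one, hyn] at h1
    exact ww2.trans h1
  have hθ0 : 0 < ‖t - t₀‖ := th2.trans_le hθth
  have hM0 : ‖evO M 0‖ = 1 := by
    obtain ⟨-, h2, -⟩ := hM4 0 (by rw [norm_zero]; exact one_pos)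
    exact h2
  -- the special coordinate
  have hP₂U : UrP p (sh E₁ τ) := ur5 E₁ τ hu0
  have hP₂m : (sh E₁ τ).map r = tt p (r τ) (bar p E₁) := (sh3 K r hr E₁ τ).1
  have hP₂0 : (sh E₁ τ).map r ≠ 0 := by
    rw [hP₂m]
    intro h0
    exact hE1 ((sh1 (r τ) (bar p E₁) 0).2.2.2.2.2.2.1.1 h0)
  obtain ⟨e, E, he, hE1', hE2, hE3, hE4⟩ := ord p hp K hE k r hr (sh E₁ τ) hP₂U hP₂0
  have heD : e ≤ D := by
    refine he.trans ?_
    rw [hP₂m]
    exact (hbar E₁).trans hED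
  obtain ⟨hE5, hE6, hE7⟩ := hE4 (t - t₀) hy1
  rw [ev5, hty] at hE5
  have hEv0 : ‖evO E 0‖ = 1 := by
    obtain ⟨-, h2, -⟩ := hE4 0 (by rw [norm_zero]; exact one_pos)
    exact h2
  have hyE : ‖(t - t₀) ^ e * evO E (t - t₀)‖ = ‖t - t₀‖ ^ e := by
    rw [norm_mul, norm_pow, hE6, mul_one]
  have he1 : 1 ≤ e := by
    rcases Nat.eq_zero_or_pos e with h0 | h0
    · have h1 : ‖(t - t₀) ^ e * evO E (t - t₀)‖ = 1 := by rw [hyE, h0, pow_zero]
      have h2 := norm_one_of_near h1 (hE5.trans_lt hpi1)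
      exact absurd h2 hW.sE.ne
    · exact h0
  have hθe : (p : ℝ)⁻¹ < ‖t - t₀‖ ^ e := by
    have h1 : th p ^ (p - 1) < th p ^ e := pow_lt_pow_right_of_lt_one₀ th2 th3 (by omega)
    rw [th1] at h1
    exact h1.trans_le (pow_le_pow_left₀ th2.le hθth e)
  have hE₁n : ‖aeval t E₁‖ = ‖t - t₀‖ ^ e := by
    rw [← hyE]
    refine norm_eq_of_near ?_
    rw [hyE]
    exact hE5.trans_lt hθe
  have hye : ‖x‖ = ‖t - t₀‖ ^ e := by
    have h1 : ‖x * aeval t E₂‖ = ‖x‖ := by rw [norm_mul, hW.nE, mul_one]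
    rw [← h1, ← hE₁n]
    refine norm_eq_of_near ?_
    rw [hE₁n]
    exact hW.hx.trans_lt hθe
  have hpn : ‖(p : K)‖ = (p : ℝ)⁻¹ := norm_p hp hE
  have hqh : ‖Q‖ = ((p : ℝ)⁻¹) ^ h := by
    have h1 : ‖Q * aeval t w₂‖ = ‖Q‖ := by rw [norm_mul, hW.n2, mul_one]
    have h2 : ‖(p : K) ^ h * aeval t w₁‖ = ((p : ℝ)⁻¹) ^ h := by
      rw [norm_mul, norm_pow, hW.n1, mul_one, hpn]
    rw [← h1, ← h2]
    refine norm_eq_of_near ?_
    rw [h2]
    exact hW.hQ.trans_lt (pow_lt_pow_right_of_lt_one₀ hpi hpi1 (Nat.lt_succ_self h))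
  -- multiplicative dependence
  obtain ⟨a', b', ha', hb', hab⟩ := hW.dep
  have hQ0 : Q ≠ 0 := by
    intro h0
    rw [h0, norm_zero] at hqh
    exact absurd hqh (pow_pos hpi h).ne
  have hQ1 : ‖Q‖ ≠ 1 := by
    rw [hqh]
    exact (pow_lt_one₀ hpi.le hpi1 (by have := hW.h1; omega)).ne
  have hph : 1 ≤ ph p a := by
    unfold ph
    exact Nat.mul_pos (Nat.pow_pos hp.pos) (by omega)
  have hu1 : 1 ≤ h * n * ph p a := Nat.mul_pos (Nat.mul_pos hW.h1 hn1) hph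
  have hnorm : ‖x‖ ^ (h * n * ph p a) = ‖Q‖ ^ e := by
    have h1 : ‖x‖ ^ (h * n * ph p a) = ((‖t - t₀‖ ^ n) ^ ph p a) ^ (h * e) := by
      rw [hye, ← pow_mul, ← pow_mul, ← pow_mul]
      congr 1
      ring
    rw [h1, hyn]
    have h2 : ‖η - 1‖ ^ ph p a = (p : ℝ)⁻¹ := ww1
    rw [h2, hqh, ← pow_mul]
  obtain ⟨ξ, hξ1, hξ2⟩ := (dep K x x Q a' b' a' b' hQ0 hQ1 ha' hb' ha' hb' hab hab).2.2
    (h * n * ph p a) e hu1 he1 hnorm
  exact ⟨τ, o, n, e, ξ, M, E,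
    { τ0 := rfl
      o0 := rfl
      n1 := hn1
      nD := hnD
      e1 := he1
      eD := heD
      rx := hξ1
      xx := hξ2
      y0 := hθ0
      yn := hyn
      ye := hye
      qh := hqh
      uM := hM1
      uE := hE1'
      mM := hM2
      mE := hE2
      M0 := hM3
      E0 := hE3
      M1 := ⟨hM6, hM0, hM7⟩
      E1 := ⟨hE6, hEv0, hE7⟩
      aM := hM5
      aE := hE5 }⟩

end Pool.Agent.ZPU.H85
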